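import Pool.Agent.Work.MP_a2800b_co.Check
import Pool.Agent.Work.MP_a2800b_co.NoEmb

/-!
# A graph with an independently even drawing on the surface of genus 3 in which any two adjacent
edges lie in a disc, but without an embedding on this surface

The graph has 189 vertices. Let `H` be the grid on a cylinder with 6 columns and 29 circles. Each
of the 12 vertices of the two end circles is joined by a path of length two to one of three hubs,
in the cyclic order 0, 1, 2, 0, 1, 2 around each end of the cylinder.

* Drawing: contract the cylinder to two vertices; the resulting graph (12 edges from two vertices
  of degree 6 to three vertices of degree 4) has an independently even drawing of genus 2 in which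
  only three pairs of adjacent edges cross oddly; the cylinder adds one handle. Each odd crossing
  of two adjacent edges is compensated by routing one of the edges around the middle vertex of the
  other one next to the hub; all crossings of adjacent edges (after the subdivision) are then in a
  small disc at a hub.
* No embedding: every rotation system has at most 172 faces. If some square of each ring of the
  grid is not a face this follows by counting faces by length. If all squares of a ring are faces,
  a function on the faces is determined by its jumps along 167 edges and its values on 5 faces.
-/

namespace Pool.Agent.Results.MP_a2800b_co.DiscCounterexample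

open ErEven

theorem result : ∃ (n : ℕ) (G : SimpleGraph (Fin n)), G.Connected ∧
    (∃ 𝒟 : Drawing G, 𝒟.eulerChar = 2 - 2 * 3 ∧ 𝒟.IndependentlyEven ∧
      𝒟.AdjacentPairsInDiscs) ∧
    ∀ 𝒟 : Drawing G, IsEmpty 𝒟.C → 𝒟.eulerChar < 2 - 2 * 3 := by
  refine ⟨189, G, G_connected, ⟨theDrawing, ?_, theDrawing_even, theDrawing_discs⟩, ?_⟩
  · rw [theDrawing_eulerChar]; norm_num
  · intro 𝒟 hC
    have h := crossingFree_eulerChar 𝒟 hC
    have h2 : (2 : ℤ) - 2 * 3 = -4 := by norm_num
    rw [h2]
    omega

end Pool.Agent.Results.MP_a2800b_co.DiscCounterexample
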